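import Pool.Agent.H174.GP.StE

open MeasureTheory ProbabilityTheory Finset Filter Topology

namespace Pool.Agent.H801.GP174

open Pool.Agent.H174.GP

theorem measurable_Tq (a : ℝ) : Measurable (Tq a) := by
  unfold Tq
  refine Measurable.ite (measurableSet_le measurable_const measurable_id) ?_ ?_
  · exact Int.measurable_floor.comp ((measurable_id.div_const a).add_const _)
  · exact (Int.measurable_floor.comp ((measurable_id.neg.div_const a).add_const _)).neg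

theorem measurable_geo (σ : ℝ) (j : ℕ) : Measurable (fun ω : ℕ → ℝ => geo σ ω j) :=
  (measurable_Tq _).comp (measurable_pi_apply j)

theorem measurable_geoR (σ : ℝ) (j : ℕ) : Measurable (fun ω : ℕ → ℝ => (geo σ ω j : ℝ)) :=
  (measurable_from_top (f := fun z : ℤ => (z : ℝ))).comp (measurable_geo σ j)

theorem measurable_Cg (σ : ℝ) (d k : ℕ) : Measurable (fun ω : ℕ → ℝ => Cg σ ω d k) := by
  unfold Cg Cs
  exact Finset.measurable_sum _ (fun j _ => (measurable_geoR σ j).const_mul _)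

theorem measurable_end (σ : ℝ) (d : ℕ) :
    Measurable (fun ω : ℕ → ℝ => ∑ j ∈ Finset.Icc 1 d, (j : ℤ) * geo σ ω j) :=
  Finset.measurable_sum _ (fun j _ => (measurable_geo σ j).const_mul _)

theorem measurable_sX (σ : ℝ) (d : ℕ) : Measurable (fun ω : ℕ → ℝ => sX σ ω d) := by
  unfold sX
  exact Finset.measurable_sum _ (fun j _ =>
    ((measurable_from_top (f := fun z : ℤ => |z|)).comp (measurable_geo σ j)).const_mul _)

/-- The event of `S_QX`. -/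
def EX (d : ℕ) (σ C1 E : ℝ) (t : ℤ) : Set (ℕ → ℝ) :=
  {ω | (∀ k ∈ Finset.Icc 1 d, k * (C1 * Real.sqrt d) ≤ Cg σ ω d k) ∧
    (∑ j ∈ Finset.Icc 1 d, (j : ℤ) * geo σ ω j) = t ∧ |(sX σ ω d : ℝ) - m1 d σ| ≤ E}

theorem measurableSet_EX (d : ℕ) (σ C1 E : ℝ) (t : ℤ) : MeasurableSet (EX d σ C1 E t) := by
  have h1 : MeasurableSet {ω : ℕ → ℝ | ∀ k ∈ Finset.Icc 1 d, k * (C1 * Real.sqrt d) ≤ Cg σ ω d k} := by
    have : {ω : ℕ → ℝ | ∀ k ∈ Finset.Icc 1 d, k * (C1 * Real.sqrt d) ≤ Cg σ ω d k} =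
        ⋂ k ∈ Finset.Icc 1 d, {ω : ℕ → ℝ | k * (C1 * Real.sqrt d) ≤ Cg σ ω d k} := by
      ext ω; simp
    rw [this]
    exact Finset.measurableSet_biInter _ (fun k _ => measurableSet_le measurable_const (measurable_Cg σ d k))
  have h2 : MeasurableSet {ω : ℕ → ℝ | (∑ j ∈ Finset.Icc 1 d, (j : ℤ) * geo σ ω j) = t} :=
    (measurable_end σ d) (measurableSet_singleton t)
  have h3 : MeasurableSet {ω : ℕ → ℝ | |(sX σ ω d : ℝ) - m1 d σ| ≤ E} := by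
    have hf : Measurable (fun ω : ℕ → ℝ => |(sX σ ω d : ℝ) - m1 d σ|) :=
      (measurable_from_top (f := fun z : ℤ => |(z : ℝ) - m1 d σ|)).comp (measurable_sX σ d)
    exact measurableSet_le hf measurable_const
  exact h1.inter (h2.inter h3)

theorem large_d (ε' M : ℝ) (h : 0 < ε') : ∃ d0 : ℕ, ∀ d ≥ d0, M ≤ Real.sqrt (ε' * Real.log d) := by
  have h1 : Tendsto (fun d : ℕ => Real.sqrt (ε' * Real.log (d : ℝ))) atTop atTop :=
    Real.tendsto_sqrt_atTop.comp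
      ((Real.tendsto_log_atTop.comp tendsto_natCast_atTop_atTop).const_mul_atTop h)
  obtain ⟨d0, hd0⟩ := (tendsto_atTop.1 h1 M).exists_forall_of_atTop
  exact ⟨d0, fun d hd => hd0 d hd⟩

theorem gp_q (h1 : S_QX) : Pool.Agent.H174.GP.S_Q := by
  intro θ s1 s2 C1 ε hθ hIs hs1 hs2 hC1 hε
  obtain ⟨ε1, hε1, H⟩ := h1 θ s1 s2 C1 (ε / 2) hθ hIs hs1 hs2 hC1 (by positivity)
  refine ⟨ε1, hε1, fun ε' hε' hle => ?_⟩
  obtain ⟨R0, hR0, d1, hd1⟩ := H ε' hε' hle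
  obtain ⟨d2, hd2⟩ := large_d ε' (R0 + C1 + 2) hε'
  refine ⟨max (max d1 d2) 1, fun d hd σ hσ hσ1 hσ2 Θ hΘ0 hΘ1 => ?_⟩
  have hd1' : d1 ≤ d := le_trans (le_trans (le_max_left _ _) (le_max_left _ _)) hd
  have hd2' : d2 ≤ d := le_trans (le_trans (le_max_right _ _) (le_max_left _ _)) hd
  have hd3 : 1 ≤ d := le_trans (le_max_right _ _) hd
  have hdR : (1 : ℝ) ≤ d := by exact_mod_cast hd3
  have hd0 : (0 : ℝ) < d := by linarith
  have hX := hd1 d hd1' σ hσ hσ1 hσ2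
  have hM := hd2 d hd2'
  set s : ℝ := Real.sqrt (ε' * Real.log d) with hs
  set q : ℝ := (d : ℝ) ^ (3 / 2 : ℝ) with hq
  have hq1 : 1 ≤ q := Real.one_le_rpow hdR (by norm_num)
  have hq0 : 0 < q := by linarith
  have hs0 : 0 ≤ s := Real.sqrt_nonneg _
  set T : Finset ℤ := Finset.Icc ⌈R0 * q⌉ ⌊s * q⌋ with hT
  set E : ℝ := s * q with hE
  have hlow : ∀ t ∈ T, (d : ℝ) ^ (-θ - 3 / 2 - ε / 2) ≤ PP.real (EX d σ C1 E t) ∧
      (d : ℝ) ^ (-θ - 3 / 2 - ε / 2) ≤ PP.real (EX d σ C1 E (t + Θ)) := by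
    intro t ht
    rw [hT, Finset.mem_Icc] at ht
    have ht1 : R0 * q ≤ t := Int.ceil_le.1 ht.1
    have ht2 : (t : ℝ) ≤ s * q := Int.le_floor.1 ht.2
    have hsq : 0 ≤ s * q := by positivity
    refine ⟨hX t ht1 (by linarith [mul_assoc 2 s q]), hX (t + Θ) ?_ ?_⟩
    · push_cast
      have : (0 : ℝ) ≤ Θ := by exact_mod_cast hΘ0
      linarith
    · push_cast
      have h5 : C1 * q ≤ s * q := mul_le_mul_of_nonneg_right (by linarith) hq0.le
      linarith [mul_assoc 2 s q]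
  have hcard : q ≤ (T.card : ℝ) := by
    rw [hT, Int.card_Icc]
    have h6 : (⌊s * q⌋ + 1 - ⌈R0 * q⌉ : ℤ) ≤ ((⌊s * q⌋ + 1 - ⌈R0 * q⌉).toNat : ℤ) := Int.self_le_toNat _
    have h7 : ((⌊s * q⌋ + 1 - ⌈R0 * q⌉ : ℤ) : ℝ) ≤ (((⌊s * q⌋ + 1 - ⌈R0 * q⌉).toNat : ℤ) : ℝ) := by
      exact_mod_cast h6
    push_cast at h7
    have h8 : s * q < ⌊s * q⌋ + 1 := Int.lt_floor_add_one _
    have h9 : (⌈R0 * q⌉ : ℝ) < R0 * q + 1 := Int.ceil_lt_add_one _
    have h10 : (R0 + C1 + 2) * q ≤ s * q := mul_le_mul_of_nonneg_right hM hq0.le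
    have h11 : 0 < C1 * q := by positivity
    have h12 : q ≤ (⌊s * q⌋ : ℝ) + 1 - ⌈R0 * q⌉ := by nlinarith
    refine le_trans h12 (le_trans h7 ?_)
    exact_mod_cast le_refl _
  have hdisj : Set.PairwiseDisjoint (T : Set ℤ)
      (fun t => EX d σ C1 E (t + Θ) ×ˢ EX d σ C1 E t) := by
    intro t _ t' _ htt
    refine Set.disjoint_left.2 (fun p hp hp' => htt ?_)
    exact hp.2.2.1.symm.trans hp'.2.2.1
  have hsum : (PP.prod PP).real (⋃ t ∈ T, EX d σ C1 E (t + Θ) ×ˢ EX d σ C1 E t) =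
      ∑ t ∈ T, PP.real (EX d σ C1 E (t + Θ)) * PP.real (EX d σ C1 E t) := by
    rw [measureReal_biUnion_finset hdisj
      (fun t _ => (measurableSet_EX d σ C1 E (t + Θ)).prod (measurableSet_EX d σ C1 E t))]
    exact Finset.sum_congr rfl (fun t _ => measureReal_prod_prod _ _)
  have hge : (d : ℝ) ^ (-(2 * θ) - 3 / 2 - ε) ≤
      ∑ t ∈ T, PP.real (EX d σ C1 E (t + Θ)) * PP.real (EX d σ C1 E t) := by
    have hpos : 0 ≤ (d : ℝ) ^ (-θ - 3 / 2 - ε / 2) := Real.rpow_nonneg hd0.le _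
    have h13 : ∀ t ∈ T, (d : ℝ) ^ (-θ - 3 / 2 - ε / 2) * (d : ℝ) ^ (-θ - 3 / 2 - ε / 2) ≤
        PP.real (EX d σ C1 E (t + Θ)) * PP.real (EX d σ C1 E t) := fun t ht =>
      mul_le_mul (hlow t ht).2 (hlow t ht).1 hpos (le_trans hpos (hlow t ht).2)
    have h14 := Finset.card_nsmul_le_sum T _ _ h13
    rw [nsmul_eq_mul] at h14
    refine le_trans ?_ h14
    have h15 : (d : ℝ) ^ (-(2 * θ) - 3 / 2 - ε) =
        q * ((d : ℝ) ^ (-θ - 3 / 2 - ε / 2) * (d : ℝ) ^ (-θ - 3 / 2 - ε / 2)) := by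
      rw [hq, ← Real.rpow_add hd0, ← Real.rpow_add hd0]
      ring_nf
    rw [h15]
    exact mul_le_mul_of_nonneg_right hcard (by positivity)
  refine le_trans hge (hsum ▸ measureReal_mono ?_)
  intro p hp
  simp only [Set.mem_iUnion] at hp
  obtain ⟨t, _, hp1, hp2⟩ := hp
  refine ⟨hp1.1, fun k hk => le_trans (by positivity) (hp2.1 k hk), ?_, hp1.2.2, hp2.2.2⟩
  rw [hp1.2.1, hp2.2.1]
  ring

end Pool.Agent.H801.GP174
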